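import Pool.Agent.Lib.MP_cb8a44_nt.RD.Defs

/-!
# Specs of Theorem RD (MP_cb8a44_nt)

Module `XXX` is the file `RD/XXX.lean` with `theorem specXXX (hYYY : SpecYYY) .. : SpecXXX` and its own
lemmas in the namespace `Pool.Agent.Lib.MPcb8a44.RD.XXXM`.  Text: /team-store/MP_cb8a44_nt_RD_h12.md.
-/

set_option autoImplicit false

open NumberField Module
open scoped Pointwise

namespace Pool.Agent.Lib.MPcb8a44.RD

/-- **MIN** (150 lines).  Successive minima exist.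
Proof.  Recursively on `i < d`: the set of integers not in `span (w_j, j < i)` is nonempty (the span
is proper, every element of `K` has a nonzero integral multiple) and the house attains its minimum on
it (`Bx_finite`); take a minimum `w_i`.  `low` is the definition of `w_i`; `mono`: `w_(i+1)` is
not in `span (w_j, j < i)` either. -/
def SpecMIN : Prop := ∀ (K : Type) [Field K] [NumberField K], Nonempty (Mn K)

/-- **CNT** (200 lines).  `n(Z) ≤ ∏ max(1, 4Z/λ_i)`.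
Proof (1-indexed).  `q_i` := least power of 2 with `q_i > 2Z/λ_i`; then `q_(i+1) ∣ q_i` and
`q_i ≤ max(1, 4Z/λ_i)`.  `O_k` := integers in `W_k = span(w_1..w_k)`, a free `ℤ`-module of rank `k`, so
`q O_k` has index `q^k` in `O_k` (only `≤` is needed).  Claim_k, by induction on `k` (`q_(d+1) = 1`): a set
`S ⊆ Bx Z` all of whose differences lie in `q_(k+1) O_k` has at most
`∏_(i ≤ k) q_i / q_(k+1)^k` elements.  `k = 0`: at most one element.  Step: `q_(k+1) O_k` is the union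
of `(q_k/q_(k+1))^k` classes mod `q_k O_k`; inside a class a difference is `q_k y` with `y ∈ O_k` and
`hs y ≤ 2Z/q_k < λ_k`, so `y ∈ O_(k-1)` (`low`), use Claim_(k-1).  Claim_d with `S = Bx Z` is the
assertion. -/
def SpecCNT : Prop := ∀ (K : Type) [Field K] [NumberField K] (m : Mn K) (Z : ℝ), 0 ≤ Z →
  ((Bx K Z).ncard : ℝ) ≤ ∏ i, max 1 (4 * Z / hs (m.w i))

/-- **DIF** (200 lines).  Many differences of sums of squares.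
Proof.  `P_i := ⌊X/hs(u_i)⌋`, `Q_i := ⌊X/hs(v_i)⌋`, both `≥ 1` (`u_i, v_i ≠ 0` by independence).  For `0 ≤ n ≤ P Q`
write `n = P b + c`, `0 ≤ c < P`, `b ≤ Q`:
`2 n u v = ((P u + b v)^2 + (c u + v)^2) - ((P u)^2 + (b v)^2 + (c u)^2 + v^2)`, where `P u, b v, c u, v` have
house `≤ X`; so the two brackets are sums of squares of house `≤ 8 X^2`, `≤ 4 X^2`.  Summing over `i`:
`∑ 2 n_i u_i v_i ∈ SY(8 d X^2) - SY(8 d X^2)` for all `n` with `0 ≤ n_i ≤ P_i Q_i`; these are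
`∏ (P_i Q_i + 1)` different elements, and `P_i Q_i + 1 ≥ X^2/(4 hs(u_i) hs(v_i))` (`⌊t⌋ ≥ t/2` for `t ≥ 1`). -/
def SpecDIF : Prop := ∀ (K : Type) [Field K] [NumberField K] (X : ℝ), 1 ≤ X →
  ∀ u v : Fin (finrank ℚ K) → K, (∀ i, IsIntegral ℤ (u i)) → (∀ i, IsIntegral ℤ (v i)) →
  (∀ i, hs (u i) ≤ X) → (∀ i, hs (v i) ≤ X) → LinearIndependent ℚ (fun i => u i * v i) →
  ∏ i, X ^ 2 / (4 * hs (u i) * hs (v i)) ≤
    ((SY K (8 * finrank ℚ K * X ^ 2) - SY K (8 * finrank ℚ K * X ^ 2)).ncard : ℝ)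

/-- **RUZ** (100 lines).  Proof.  `N_j := |SY(2^j Y)|`.  Ruzsa's triangle inequality
(`Finset.ruzsa_triangle_inequality_sub_add_add` and relatives) with `A = SY(Y)`, `B = SY(2^j Y)`:
`|A - A| |B| ≤ |A + B| |B + A| ≤ N_(j+1)^2`.  Multiply over `j < J`:
`|A - A|^J ∏_(j<J) N_j ≤ ∏_(1≤j≤J) N_j^2`, so `|A-A|^J ≤ N_J^2 ∏_(1≤j<J) N_j / N_0 ≤ N_J^(J+1)`
(`N_j ≤ N_J`, `N_0 ≥ 1`). -/
def SpecRUZ : Prop := ∀ (K : Type) [Field K] [NumberField K] (Y : ℝ), 0 ≤ Y → ∀ J : ℕ, 1 ≤ J →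
  (SY K Y - SY K Y).ncard ^ J ≤ (SY K (2 ^ J * Y)).ncard ^ (J + 1)

/-- **ONE** (200 lines), from CNT, DIF, RUZ.
Proof.  `X = exp x`, `Y = 8 d X^2`, `Z = √(2^J Y)`.  By `P3` and `TR`, `|SY(2^J Y)| ≤ |Bx(Z)|^3` (if
`α = a^2+b^2+c^2` then `hs a ^2, .. ≤ hs α` since the conjugates of squares are `≥ 0`).  DIF, RUZ, CNT:
`(∏ X^2/(4 hs(u_i) hs(v_i)))^J ≤ (∏ max(1, 4Z/λ_i))^(3(J+1))`.  Here `4Z ≥ X` and for `i ≥ r` we have `λ_i ≥ X`, so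
`max(1, 4Z/λ_i) ≤ 4Z/X`, and for `i < r`, `max(1, 4Z/λ_i) = 4Z/λ_i`.  Take logarithms, with
`c := log 4 + (J log 2 + log(8d))/2`, so `log(4Z) = x + c`:
`J (∑_(i<r) (2x - ℓ_i) + (d-r)(2x - mm) - d log 4) ≤ 3(J+1) (∑_(i<r) (x - ℓ_i) + d c)`.  Divide by `J`; use
`∑_(i<r) (x - ℓ_i) ≤ d x`, `3 (1+1/J) d c ≤ 6 d c`, `6 c + log 4 ≤ 3 J + 3 log(8d) + 10`. -/
def SpecONE : Prop := ∀ (K : Type) [Field K] [NumberField K] (m : Mn K), TR K → P3 K →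
  ∀ (J r : ℕ) (x mm : ℝ), 1 ≤ J → r ≤ finrank ℚ K → 0 ≤ x →
  (∀ i, i < r → ell m i ≤ x) → (∀ i, r ≤ i → i < finrank ℚ K → x ≤ ell m i) →
  ∀ u v : Fin (finrank ℚ K) → K, (∀ i, IsIntegral ℤ (u i)) → (∀ i, IsIntegral ℤ (v i)) →
  (∀ i, hs (u i) ≤ Real.exp x) → (∀ i, hs (v i) ≤ Real.exp x) →
  (∀ i : Fin (finrank ℚ K), (i : ℕ) < r → Real.log (hs (u i)) + Real.log (hs (v i)) ≤ ell m i) →
  (∀ i : Fin (finrank ℚ K), r ≤ (i : ℕ) → Real.log (hs (u i)) + Real.log (hs (v i)) ≤ mm) →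
  LinearIndependent ℚ (fun i => u i * v i) →
  2 * ∑ i ∈ Finset.range r, ell m i + ((finrank ℚ K : ℝ) - r) * (2 * x - mm) ≤
    r * x + finrank ℚ K * EJ (finrank ℚ K) J x

/-- **DUA** (60 lines).  Proof.  Otherwise a nonzero functional `f : K → ℚ` kills `A * B`.  The bilinear form
`(x, y) ↦ f(x y)` is nondegenerate (`f(xK) = 0`, `x ≠ 0` gives `f = 0`), and `A` lies in the orthogonal
complement of `B`, of dimension `d - dim B < dim A`. -/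
def SpecDUA : Prop := ∀ (K : Type) [Field K] [NumberField K] (A B : Submodule ℚ K),
  finrank ℚ K < finrank ℚ A + finrank ℚ B → A * B = ⊤

/-- **SEL** (150 lines), from DUA.  Selection of a basis of products.
Proof.  `W_j := span(w_i, i < j)` has dimension `j`.  `W_r * W_(d+1-r) = K` by DUA, so the products `w_a w_b` with
`a < r`, `b ≤ d - r` span `K`; extend the independent family `w_i`, `i < r`, by `d - r` of these products to a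
basis (`exists_linearIndependent_extension`). -/
def SpecSEL : Prop := ∀ (K : Type) [Field K] [NumberField K] (m : Mn K) (r : ℕ), r ≤ finrank ℚ K →
  finrank ℚ K + 1 ≤ 2 * r →
  ∃ u v : Fin (finrank ℚ K) → K,
    (∀ i : Fin (finrank ℚ K), (i : ℕ) < r → u i = 1 ∧ v i = m.w i) ∧
    (∀ i : Fin (finrank ℚ K), r ≤ (i : ℕ) → ∃ a b : Fin (finrank ℚ K), (a : ℕ) < r ∧
      (b : ℕ) ≤ finrank ℚ K - r ∧ u i = m.w a ∧ v i = m.w b) ∧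
    LinearIndependent ℚ (fun i => u i * v i)

/-- **DU2** (80 lines), from DUA.  `λ_i λ_j ≥ λ_(d-1)` if `i + j ≥ d - 1` (0-indexed).
Proof.  `W_(i+1) * W_(j+1) = K` by DUA; if `λ_i λ_j < λ_(d-1)`, all products `w_a w_b`, `a ≤ i`, `b ≤ j` are
integers of house `< λ_(d-1)`, so lie in `W_(d-1) ≠ K` (`low`), a contradiction. -/
def SpecDU2 : Prop := ∀ (K : Type) [Field K] [NumberField K] (m : Mn K) (i j : ℕ),
  i < finrank ℚ K → j < finrank ℚ K → finrank ℚ K ≤ i + j + 1 → Lam m ≤ ell m i + ell m j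

/-- **SEQ** (150 lines), from ONE, SEL.  Proof.  (a) ONE with `r = d`, `x = Lam m`, `mm = 0`, `u = 1`, `v = w`.
(b) ONE with `r = d - s`, `x = ell m (d-s)`, `mm = ell m (d-s-1) + ell m s`, and `u, v` from SEL (`2s < d`);
`EJ d J x` increases with `x ≤ Lam m`. -/
def SpecSEQ : Prop := ∀ (K : Type) [Field K] [NumberField K] (m : Mn K), TR K → P3 K →
  ∀ J : ℕ, 1 ≤ J →
  (2 * ∑ i ∈ Finset.range (finrank ℚ K), ell m i ≤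
    finrank ℚ K * Lam m + finrank ℚ K * EJ (finrank ℚ K) J (Lam m)) ∧
  (∀ s : ℕ, 1 ≤ s → 2 * s < finrank ℚ K →
    2 * ∑ i ∈ Finset.range (finrank ℚ K - s), ell m i +
      s * (2 * ell m (finrank ℚ K - s) - ell m (finrank ℚ K - s - 1) - ell m s) ≤
    ((finrank ℚ K : ℝ) - s) * ell m (finrank ℚ K - s) +
      finrank ℚ K * EJ (finrank ℚ K) J (Lam m))

/-- **LIN** (200 lines).  Pure real arithmetic.
Proof.  `L := ℓ (d-1)`, `t_j := ℓ j + ℓ (d-1-j) - L ≥ 0` (`hD`), `∑_(j<d) t_j = 2 ∑ ℓ - d L ≤ d E`.  For `1 ≤ s`, `2s < d`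
rewrite `hR` with `ℓ (d-s) = L + t_(s-1) - ℓ (s-1)`, `ℓ (d-s-1) + ℓ s = L + t_s`,
`2 ∑_(i<d-s) ℓ i = 2 ∑ ℓ - 2 ∑_(j<s) ℓ (d-1-j) = d L + ∑_(j<d) t_j - 2 ∑_(j<s) (L + t_j - ℓ j) ≥ d L - 2 s L + 2 ∑_(j<s) ℓ j`
(since `∑_(j<d) t_j ≥ 2 ∑_(j<s) t_j` by the symmetry `t_j = t_(d-1-j)`, `2s < d`).  Result:
`(d - 3s) ℓ (s-1) ≤ (d - 3s) t_(s-1) + s t_s + d E`.  Among the integers `s` with `0.32 d ≤ s ≤ 0.33 d` (at least
`0.009 d` of them if `d ≥ 1000`) one has `t_(s-1) + t_s ≤ 2 d E/(0.009 d) ≤ 223 E`; there `d - 3s ≥ 0.01 d`, so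
`ℓ (s-1) ≤ 223 E + 33 * 223 E + 100 E ≤ 10000 E`. -/
def SpecLIN : Prop := ∀ (d : ℕ), 1000 ≤ d → ∀ (ℓ : ℕ → ℝ) (E : ℝ), 0 ≤ E → (∀ i < d, 0 ≤ ℓ i) →
  (∀ i j, i ≤ j → j < d → ℓ i ≤ ℓ j) →
  (∀ i j, i < d → j < d → d ≤ i + j + 1 → ℓ (d - 1) ≤ ℓ i + ℓ j) →
  2 * ∑ i ∈ Finset.range d, ℓ i ≤ d * ℓ (d - 1) + d * E →
  (∀ s : ℕ, 1 ≤ s → 2 * s < d →
    2 * ∑ i ∈ Finset.range (d - s), ℓ i + s * (2 * ℓ (d - s) - ℓ (d - s - 1) - ℓ s) ≤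
    ((d : ℝ) - s) * ℓ (d - s) + d * E) →
  ∃ s : ℕ, 1 ≤ s ∧ 32 * d ≤ 100 * s ∧ 3 * s ≤ d ∧ ℓ (s - 1) ≤ 10000 * E

/-- **LEMF** (200 lines).  The 3/2 lemma.
Proof.  `n = dim V`.  For `0 ≠ x, y ∈ V` and `a = x/y` let `Y_a := {v ∈ V : a v ∈ V}`; its dimension is
`dim(xV ∩ yV) ≥ 2n - dim(V V) > n/2` (`xV + yV ⊆ V V`; `v ↦ x v` maps `Y_a` onto `xV ∩ yV`).
`R := {x/y : x, y ∈ V, y ≠ 0}`.  For `a, b ∈ R \ 0`: `b Y_b` and `Y_a` are subspaces of `V` of dimension `> n/2`, so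
there is `0 ≠ y ∈ Y_b` with `b y ∈ Y_a`; `a b y ∈ V`, so `a b ∈ R`; and `Y_a ∩ Y_b ≠ 0` gives `a + b ∈ R`.  So `R` is a
subfield, `V ⊆ V V ⊆ R` (`1 ∈ V`).  If `V V ≠ R` there is a linear `f : R → ℚ`, `f ≠ 0`, `f(V V) = 0`; the
form `f(x y)` on `R` is nondegenerate, so the functional `y ↦ Tr_(K/ℚ)(y)` on `R` is `f(u ·)` with `u ∈ R`; `u ≠ 0`
(`Tr 1 ≠ 0`), so there is `0 ≠ y ∈ Y_u`: `Tr(y^2) = f((u y) y) = 0`, but `Tr(y^2) = ∑ φ(y)^2 > 0` by `TR`. -/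
def SpecLEMF : Prop := ∀ (K : Type) [Field K] [NumberField K], TR K → ∀ V : Submodule ℚ K,
  (1 : K) ∈ V → 2 * finrank ℚ (V * V : Submodule ℚ K) < 3 * finrank ℚ V →
  ∃ F : IntermediateField ℚ K, Subalgebra.toSubmodule F.toSubalgebra = V * V

/-- **CHN** (150 lines), from LEMF.
Proof.  `V_j := span{x integral, hs x ≤ exp(2^j c0)}`, `j = 0..3`; `1 ∈ V_j`, `V_j V_j ⊆ V_(j+1)`, `dim V_0 ≥ s ≥ 0.32 d`
(it contains `w_0..w_(s-1)`).  `(3/2)^3 * 0.32 > 1`, so `2 dim V_(j+1) < 3 dim V_j` for some `j ∈ {0,1,2}`.  LEMF: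
`F := V_j V_j` is a subfield, spanned by products of two integers of house `≤ exp(4 c0)`; `dim F ≥ dim V_0 > d/4`, and
`dim F * [K:F] = d`. -/
def SpecCHN : Prop := ∀ (K : Type) [Field K] [NumberField K], TR K → ∀ (m : Mn K) (s : ℕ) (c0 : ℝ),
  0 ≤ c0 → 1 ≤ s → s ≤ finrank ℚ K → 32 * finrank ℚ K ≤ 100 * s → ell m (s - 1) ≤ c0 →
  ∃ F : IntermediateField ℚ K, finrank F K ≤ 3 ∧ Spn F (Real.exp (8 * c0))

/-- **LAM** (40 lines).  Proof.  If `Φ < λ_(d-1)`, all integers of house `≤ Φ` lie in the proper subspace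
`span(w_j, j < d-1)` (`low`). -/
def SpecLAM : Prop := ∀ (K : Type) [Field K] [NumberField K] (m : Mn K) (Φ : ℝ), 1 ≤ Φ →
  (∀ x : K, x ∈ Submodule.span ℚ {y : K | IsIntegral ℤ y ∧ hs y ≤ Φ}) → Lam m ≤ Real.log Φ

/-- **SML** (120 lines), from LAM.  Proof.  `[K:F] ≤ 3` and `c ∉ F`, so `[K:F]` is 2 or 3, prime, `K = F(c)` and
`1, c, c^2` span `K` over `F`.  So `K` is spanned over `ℚ` by the `f c^i`, `i ≤ 2`, `f ∈ F` integral with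
`hs f ≤ Φ`, of house `≤ Φ T^2`; LAM. -/
def SpecSML : Prop := ∀ (K : Type) [Field K] [NumberField K] (m : Mn K) (F : IntermediateField ℚ K)
  (Φ T : ℝ), 1 ≤ Φ → 1 ≤ T → Spn F Φ → finrank F K ≤ 3 → ∀ c : K, IsIntegral ℤ c → c ∉ F → hs c ≤ T →
  Lam m ≤ Real.log Φ + 2 * Real.log T

/-- **RND** (60 lines).  Rounding.  Proof.  Choose a `ℚ`-basis `f_i` of `F` inside the spanning set (`n = dim F`
elements).  `z = ∑ θ_i f_i`, `θ_i ∈ ℚ`; `f := ∑ round(θ_i) f_i`: `hs (z - f) ≤ ∑ (1/2) Φ = n Φ/2`. -/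
def SpecRND : Prop := ∀ (K : Type) [Field K] [NumberField K] (F : IntermediateField ℚ K) (Φ : ℝ),
  1 ≤ Φ → Spn F Φ → ∀ z ∈ F, ∃ f ∈ F, IsIntegral ℤ f ∧ hs (z - f) ≤ finrank ℚ K * Φ

/-- **RED** (50 lines), from RND.  Small residues.  Proof.  RND for `z = x/δ` (`F = ⊤`): `x' := x - δ f = δ (z - f)`. -/
def SpecRED : Prop := ∀ (F : Type) [Field F] [NumberField F] (Φ : ℝ), 1 ≤ Φ →
  (∀ x : F, x ∈ Submodule.span ℚ {y : F | IsIntegral ℤ y ∧ hs y ≤ Φ}) →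
  ∀ δ x : 𝓞 F, δ ≠ 0 → ∃ x' : 𝓞 F, δ ∣ x - x' ∧ hs (x' : F) ≤ finrank ℚ F * Φ * hs (δ : F)

/-- **GAM** (200 lines).  An element `1 + 4u` of negative norm and small house.
Proof.  `f_i` a `ℚ`-basis of `F` inside the spanning set (`n` elements).  The vectors `(φ f_i)_φ ∈ ℝ^n` (real by `TR`)
are independent over `ℝ` (nonzero discriminant, e.g. `Algebra.discr_not_zero_of_basis` /
`NumberField.canonicalEmbedding`), so a basis of `ℝ^n`.  `z_φ := -R` for one `φ_0`, `:= R` for the others,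
`R := 2nΦ + 2`.  `z/4 = ∑ θ_i f_i`, `u := ∑ round(θ_i) f_i`, `|φ(4u) - z_φ| ≤ 4 * nΦ/2 = 2nΦ`.  So `1+4u` is `< 0` at
`φ_0` and `> 0` at the others: negative norm (`norm_eq_prod` of Prime.lean); its house is
`≤ 1 + R + 2nΦ ≤ 7nΦ`. -/
def SpecGAM : Prop := ∀ (F : Type) [Field F] [NumberField F] (Φ : ℝ), TR F → 1 ≤ Φ →
  (∀ x : F, x ∈ Submodule.span ℚ {y : F | IsIntegral ℤ y ∧ hs y ≤ Φ}) →
  ∃ u : 𝓞 F, Algebra.norm ℤ (1 + 4 * u) < 0 ∧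
    hs (((1 + 4 * u : 𝓞 F)) : F) ≤ 7 * finrank ℚ F * Φ

/-- **BET** (250 lines), from RED, GAM.  A small sum of three squares which is not a sum of two squares.
Proof.  As `exists_prime` and `exists_three_not_two` in Prime.lean, with sizes.  `γ = 1+4u` (GAM), `|N γ| = 3 mod 4`,
so some prime `P ∣ (γ)` has `N P = 3 mod 4` (the proof of `exists_prime` by induction also gives `γ ∈ P`: carry
`I ≤ P` along).  There are `a, b ∈ 𝓞 F` with `a^2+b^2+1 ∈ P`, `a ∉ P`, and `π ∈ P \ P^2`; replace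
`a, b, π` by residues mod `γ^2 ∈ P^2` (RED): house `≤ nΦ (7nΦ)^2 = 49 n^3 Φ^3`.  Either `a^2+b^2+1 ∉ P^2` and
`(a, b, 1)` works, or `(a+π, b, 1)` does. -/
def SpecBET : Prop := ∀ (F : Type) [Field F] [NumberField F] (Φ : ℝ), TR F → 1 ≤ Φ →
  (∀ x : F, x ∈ Submodule.span ℚ {y : F | IsIntegral ℤ y ∧ hs y ≤ Φ}) →
  ∃ a b c : 𝓞 F, (hs (a : F) ≤ 100 * finrank ℚ F ^ 3 * Φ ^ 3 ∧
    hs (b : F) ≤ 100 * finrank ℚ F ^ 3 * Φ ^ 3 ∧ hs (c : F) ≤ 100 * finrank ℚ F ^ 3 * Φ ^ 3) ∧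
    ¬ ∃ y z : 𝓞 F, a ^ 2 + b ^ 2 + c ^ 2 = y ^ 2 + z ^ 2

/-- **BTF** (120 lines), from BET.  The same inside `K`.
Proof.  Every embedding of `F` extends to `K`, so `hs` of an element of `F` is the same in `F` and in `K`; an
element of `F` is integral in `F` iff in `K`; a span statement in `K` restricts to `F`; `F` is totally real. -/
def SpecBTF : Prop := ∀ (K : Type) [Field K] [NumberField K], TR K →
  ∀ (F : IntermediateField ℚ K) (Φ : ℝ), 1 ≤ Φ → Spn F Φ →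
  ∃ a b c : K, (a ∈ F ∧ IsIntegral ℤ a ∧ hs a ≤ 100 * finrank ℚ K ^ 3 * Φ ^ 3) ∧
    (b ∈ F ∧ IsIntegral ℤ b ∧ hs b ≤ 100 * finrank ℚ K ^ 3 * Φ ^ 3) ∧
    (c ∈ F ∧ IsIntegral ℤ c ∧ hs c ≤ 100 * finrank ℚ K ^ 3 * Φ ^ 3) ∧
    ∀ y z : K, y ∈ F → z ∈ F → IsIntegral ℤ y → IsIntegral ℤ z →
      a ^ 2 + b ^ 2 + c ^ 2 ≠ y ^ 2 + z ^ 2

/-- **FSQ** (150 lines).  The forced square.
Proof.  `β = a^2+b^2+c^2`.  By `P3`, `h^2 + β = y_1^2+y_2^2+y_3^2`; comparing mean values (all conjugates real):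
`Ms y_1 + Ms y_2 + Ms y_3 = Ms h + Ms a + Ms b + Ms c ≤ Ms g + 1 + 3 B^2 < 2 Ms g`.  Since `h^2 + β ∉ F`, some `y_i ∉ F`
has `Ms y_i ≥ Ms g`; so exactly one, `y`, the two others `y', y''` lie in `F`.  `κ := β - y'^2 - y''^2 = y^2 - h^2 ≠ 0` (`β`
is not a sum of two squares in `F`), `Av κ ≤ 3 B^2 + Ms y' + Ms y'' ≤ 3 B^2 + 1 + 3 B^2`. -/
def SpecFSQ : Prop := ∀ (K : Type) [Field K] [NumberField K], TR K → P3 K →
  ∀ (F : IntermediateField ℚ K) (a b c g h : K) (B : ℝ),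
  (a ∈ F ∧ IsIntegral ℤ a ∧ hs a ≤ B) → (b ∈ F ∧ IsIntegral ℤ b ∧ hs b ≤ B) →
  (c ∈ F ∧ IsIntegral ℤ c ∧ hs c ≤ B) →
  (∀ y z : K, y ∈ F → z ∈ F → IsIntegral ℤ y → IsIntegral ℤ z →
    a ^ 2 + b ^ 2 + c ^ 2 ≠ y ^ 2 + z ^ 2) →
  IsIntegral ℤ g → g ∉ F → (∀ x : K, IsIntegral ℤ x → x ∉ F → Ms g ≤ Ms x) →
  1 + 3 * B ^ 2 < Ms g → IsIntegral ℤ h → h ^ 2 ∉ F → Ms h ≤ Ms g + 1 →
  ∃ y κ : K, IsIntegral ℤ y ∧ y ∉ F ∧ κ ∈ F ∧ κ ≠ 0 ∧ y ^ 2 = h ^ 2 + κ ∧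
    Ms y ≤ Ms g + 1 + 3 * B ^ 2 ∧ Av κ ≤ 6 * B ^ 2 + 1

/-- **IX3** (200 lines), from LAM.  Index 3.
Proof.  `t := Ms g ≥ 1`.  `1, g, g^2` are an `F`-basis of `K`.  If `y = p + q g` with `p, q ∈ F` then `y^2 = g^2 + κ` gives
`q^2 = 1`, `2pq = 0`, `p^2 = κ`, so `p = 0`, `κ = 0`, a contradiction.  So `1, g, y` is an `F`-basis of `K`, and `K` is
spanned over `ℚ` by `f, f g, f y`, `f ∈ F` integral of house `≤ Φ`; `hs g ^2 ≤ d t`, `hs y ^2 ≤ 2 d t`; LAM: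
`Lam ≤ log Φ + log(2 d t)/2`.  An integer of house `< √t` has `Ms < t`, so lies in `F`; hence `ℓ_i ≥ (log t)/2` for `i ≥ d/3`
(`w_0..w_i` are more than `dim F = d/3` independent elements), `∑ ℓ_i ≥ (2d/3)(log t)/2`.  The
hypothesis: `(2/3) log t ≤ Lam + E ≤ log Φ + log(2d)/2 + (log t)/2 + E`, so `log t ≤ 6 log Φ + 3 log(2d) + 6E`. -/
def SpecIX3 : Prop := ∀ (K : Type) [Field K] [NumberField K] (m : Mn K), TR K →
  ∀ (F : IntermediateField ℚ K) (Φ E : ℝ) (g y κ : K), finrank F K = 3 → 1 ≤ Φ → Spn F Φ → 0 ≤ E →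
  IsIntegral ℤ g → g ∉ F → (∀ x : K, IsIntegral ℤ x → x ∉ F → Ms g ≤ Ms x) →
  IsIntegral ℤ y → y ∉ F → κ ∈ F → κ ≠ 0 → y ^ 2 = g ^ 2 + κ → Ms y ≤ 2 * Ms g →
  2 * ∑ i ∈ Finset.range (finrank ℚ K), ell m i ≤ finrank ℚ K * Lam m + finrank ℚ K * E →
  Lam m ≤ 4 * Real.log Φ + 2 * Real.log (2 * finrank ℚ K) + 3 * E

/-- **IXA** (250 lines), from RND.  Index 2: a pure integer of small norm outside `F`.
Proof.  `σ` the nontrivial automorphism of `K/F` (`Ms (σ x) = Ms x`, `σ` permutes the embeddings).  `A := h + σh`,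
`e := h - σh`, `P := y + σy`, `y' := y - σy`: `A, P ∈ F`, `σe = -e`, `e ∉ F`, `e^2 ∈ F`, all integral, and for `f ∈ F`, `σx = -x`:
`Ms(f + x) = Ms f + Ms x`.  Every `z ∈ F` has an integer `f ∈ F` with `Ms(z - f) ≤ (dΦ)^2` (RND, `Ms_le_hs`).  `g` minimal: `Ms(g - f) ≥ Ms g`, so `Ms((g+σg)/2) ≤ Ms((g+σg)/2 - f) ≤ (dΦ)^2`; if
`h = g + 1`, `g^2 ∈ F`, then `σg = -g` and `A = 2`; so `Ms A ≤ 4R`, `R := (dΦ)^2 + 1`.  Same for `y`: `Ms(y - f) ≥ Ms g ≥ Ms y - B1`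
gives `Ms P ≤ 4(R + B1)`.  `y^2 = h^2 + κ`: `P y' = A e` and `P^2 + y'^2 = A^2 + e^2 + 4κ`, so
`e^2 (A^2 - P^2) = P^2 (A^2 - P^2 + 4κ)`.  `A ≠ 0` (`h^2 ∉ F`), `P ≠ 0`, and `A^2 = P^2` would give `κ = 0`.  Product over all
embeddings of `K`, `∏ |φ(A^2-P^2)| ≥ 1` (`one_le_prod_norm`), AM-GM: `(∏ |φ e|)^2 ≤ (Ms P)^d (Ms A + Ms P + 4 B2)^d`, `d = 2n`. -/
def SpecIXA : Prop := ∀ (K : Type) [Field K] [NumberField K], TR K →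
  ∀ (F : IntermediateField ℚ K) (Φ B1 B2 : ℝ) (g h y κ : K), finrank F K = 2 → 1 ≤ Φ → Spn F Φ →
  0 ≤ B1 → 0 ≤ B2 → IsIntegral ℤ g → g ∉ F → (∀ x : K, IsIntegral ℤ x → x ∉ F → Ms g ≤ Ms x) →
  (h = g ∨ (g ^ 2 ∈ F ∧ h = g + 1)) → h ^ 2 ∉ F →
  IsIntegral ℤ y → y ∉ F → κ ∈ F → κ ≠ 0 → y ^ 2 = h ^ 2 + κ → Ms y ≤ Ms g + B1 → Av κ ≤ B2 →
  ∃ e : K, IsIntegral ℤ e ∧ e ∉ F ∧ e ^ 2 ∈ F ∧ ∏ φ : K →+* ℂ, ‖φ e‖ ≤
    (4 * (((finrank ℚ K : ℝ) * Φ) ^ 2 + 1 + B1) *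
      (8 * (((finrank ℚ K : ℝ) * Φ) ^ 2 + 1) + 4 * B1 + 4 * B2)) ^ finrank ℚ F

/-- **IXB** (200 lines).  Index 2: Minkowski in `F`, by pigeonhole.
Proof.  `n = finrank ℚ F`, `d = 2n`.  `‖φ e‖` depends only on `τ = φ|_F` (`φ(e)^2 = τ(e^2)`); call it `G_τ > 0`;
`∏_τ G_τ^2 = ∏_φ ‖φ e‖ ≤ H^n`.  `f_1..f_n` a basis of `F` of integers of house `≤ Φ`; `s_τ := 3nΦ√H/G_τ`.  The `N^n` elements
`∑ ν_i f_i`, `0 ≤ ν_i < N`, have real conjugates in `[-nNΦ, nNΦ]`, cut into `≤ 2nNΦ/s_τ + 1 = (2/3) N G_τ/√H + 1` cells of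
length `≤ s_τ`; the number of cells is `∏_τ ((2/3) N G_τ/√H + 1) < N^n` for large `N`, because `∏ (2/3) G_τ/√H ≤ (2/3)^n < 1`.
Two elements in one cell: `0 ≠ f ∈ F` integral with `|τ f| ≤ s_τ`, `z := f e`: `hs z ≤ 3nΦ√H`. -/
def SpecIXB : Prop := ∀ (K : Type) [Field K] [NumberField K], TR K →
  ∀ (F : IntermediateField ℚ K) (Φ H : ℝ) (e : K), finrank F K = 2 → 1 ≤ Φ → Spn F Φ → 1 ≤ H →
  IsIntegral ℤ e → e ∉ F → e ^ 2 ∈ F → ∏ φ : K →+* ℂ, ‖φ e‖ ≤ H ^ finrank ℚ F →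
  ∃ z : K, IsIntegral ℤ z ∧ z ∉ F ∧ hs z ≤ 3 * finrank ℚ K * Φ * Real.sqrt H

/-- **IDX** (200 lines), from SML, BTF, FSQ, IX3, IXA, IXB.
Proof.  `F ≠ K`: `[K:F] ∈ {2,3}`.  `g` := an integer not in `F` with minimal `Ms` (`Bx_finite`, `hs_le_Ms`).  `a, b, c` from BTF,
`B := 100 d^3 Φ^3`.  If `Ms g ≤ 1 + 3B^2` then `hs g ≤ √(d (1+3B^2)) ≤ 200 d^4 Φ^3`, SML.  Otherwise `h := g` if `g^2 ∉ F`; if
`g^2 ∈ F` then `[K:F] = 2`, `g` has trace 0 over `F`, `Ms(g+1) = Ms g + 1`, `h := g+1`.  FSQ; index 3: IX3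
(`Ms y < 2 Ms g`); index 2: IXA with `B1 = 1+3B^2`, `B2 = 6B^2+1`, IXB, SML with `c = z`,
`T = 3dΦ√H ≤ 10^6 d^7 Φ^7`. -/
def SpecIDX : Prop := ∀ (K : Type) [Field K] [NumberField K] (m : Mn K), TR K → P3 K →
  ∀ (F : IntermediateField ℚ K) (Φ E : ℝ), F ≠ ⊤ → finrank F K ≤ 3 → 1 ≤ Φ → Spn F Φ → 0 ≤ E →
  2 * ∑ i ∈ Finset.range (finrank ℚ K), ell m i ≤ finrank ℚ K * Lam m + finrank ℚ K * E →
  Lam m ≤ 15 * Real.log Φ + 14 * Real.log (finrank ℚ K) + 30 + 3 * E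

/-- **BIG** (100 lines), from SEQ, DU2, LIN, CHN, LAM, IDX.
Proof.  `J := 10^7`, `E := EJ d J Lam`.  LIN (hypotheses: SEQ, DU2, `ell_mono`): `ell (s-1) ≤ 10^4 E =: c0`.  CHN: `F`,
`log Φ = 8 c0`.  `F = K`: LAM; `F ≠ K`: IDX with this `E`.  So `Lam ≤ 1.3 * 10^6 E + 14 log d + 30`, and
`E = 3 Lam/J + 3J + 3 log(8d) + 10`, `1.3 * 10^6 * 3/10^7 < 1/2`. -/
def SpecBIG : Prop := ∃ C : ℝ, ∀ (K : Type) [Field K] [NumberField K] (m : Mn K), TR K → P3 K →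
  1000 ≤ finrank ℚ K → Lam m ≤ C * (1 + Real.log (finrank ℚ K))

/-- **SMA** (150 lines).  Bounded degree.  Proof.  Choose an embedding of `K` into `ℂ`; its image `K'` is
in the finite set `smallPyth n` of MP_cb8a44_nt/Finite.lean (`smallPyth_finite`).  Each member of this set has a
`ℚ`-basis of integers; take the maximum of their houses and transport the basis to `K`. -/
def SpecSMA : Prop := ∀ n : ℕ, ∃ X : ℝ, ∀ (K : Type) [Field K] [NumberField K], TR K → P3 K →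
  finrank ℚ K ≤ n → ∃ b : Fin (finrank ℚ K) → K, LinearIndependent ℚ b ∧
    ∀ i, IsIntegral ℤ (b i) ∧ hs (b i) ≤ X

/-- **DSC** (120 lines).  Discriminant bound.  Proof.  `disc(b) = (index)^2 disc(K)` (integrality of the base change
matrix from an integral basis), `disc(b) = det(φ_j b_i)^2`, and `|det| ≤ d! X^d ≤ (dX)^d`. -/
def SpecDSC : Prop := ∀ (K : Type) [Field K] [NumberField K] (X : ℝ)
  (b : Fin (finrank ℚ K) → K), LinearIndependent ℚ b →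
  (∀ i, IsIntegral ℤ (b i) ∧ hs (b i) ≤ X) →
  |((discr K : ℤ) : ℝ)| ≤ (finrank ℚ K * X) ^ (2 * finrank ℚ K)

end Pool.Agent.Lib.MPcb8a44.RD
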