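import Mathlib
import Pool.Agent.Lib.MP_cb8a44_nt.AB.Ua

/-!
# Fields with `P(O_K) ≤ 3` have small root discriminant: definitions and basic lemmas (Theorem RD)

Text: /team-store/MP_cb8a44_nt_RD_h12.md.  `K` is a number field, `d = finrank ℚ K`.
-/

set_option autoImplicit false

open NumberField Module
open scoped Pointwise

namespace Pool.Agent.Lib.MPcb8a44.RD

/-- `K` is totally real. -/
def TR (K : Type) [Field K] : Prop := ∀ φ : K →+* ℂ, ∀ x : K, (φ x).im = 0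

/-- The house of `x`: the largest absolute value of its conjugates. -/
noncomputable def hs {K : Type} [Field K] [NumberField K] (x : K) : ℝ :=
  ‖fun φ : K →+* ℂ => φ x‖

/-- The mean square of the conjugates of `x`. -/
noncomputable def Ms {K : Type} [Field K] [NumberField K] (x : K) : ℝ :=
  (∑ φ : K →+* ℂ, ‖φ x‖ ^ 2) / finrank ℚ K

/-- The mean absolute value of the conjugates of `x`. -/
noncomputable def Av {K : Type} [Field K] [NumberField K] (x : K) : ℝ :=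
  (∑ φ : K →+* ℂ, ‖φ x‖) / finrank ℚ K

/-- The integers of house at most `X`. -/
def Bx (K : Type) [Field K] [NumberField K] (X : ℝ) : Set K := {x | IsIntegral ℤ x ∧ hs x ≤ X}

/-- The sums of squares of integers. -/
def SS (K : Type) [Field K] : AddSubmonoid K :=
  AddSubmonoid.closure {y | ∃ x : K, IsIntegral ℤ x ∧ y = x ^ 2}

/-- The sums of squares of integers of house at most `Y`. -/
def SY (K : Type) [Field K] [NumberField K] (Y : ℝ) : Set K := {α | α ∈ SS K ∧ hs α ≤ Y}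

/-- Every sum of squares of integers is a sum of three squares of integers. -/
def P3 (K : Type) [Field K] : Prop := ∀ α ∈ SS K, ∃ a b c : K,
  IsIntegral ℤ a ∧ IsIntegral ℤ b ∧ IsIntegral ℤ c ∧ α = a ^ 2 + b ^ 2 + c ^ 2

/-- Successive minima of the integers of `K` for the house. -/
structure Mn (K : Type) [Field K] [NumberField K] where
  w : Fin (finrank ℚ K) → K
  int : ∀ i, IsIntegral ℤ (w i)
  ind : LinearIndependent ℚ w
  mono : Monotone fun i => hs (w i)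
  low : ∀ i x, IsIntegral ℤ x → hs x < hs (w i) → x ∈ Submodule.span ℚ (w '' Set.Iio i)

/-- The logarithms of the successive minima; `0`-indexed, `ell m j = 0` for `d ≤ j`. -/
noncomputable def ell {K : Type} [Field K] [NumberField K] (m : Mn K) (j : ℕ) : ℝ :=
  if h : j < finrank ℚ K then Real.log (hs (m.w ⟨j, h⟩)) else 0

/-- The logarithm of the largest successive minimum. -/
noncomputable def Lam {K : Type} [Field K] [NumberField K] (m : Mn K) : ℝ :=
  ell m (finrank ℚ K - 1)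

/-- The error term. -/
noncomputable def EJ (d J : ℕ) (x : ℝ) : ℝ := 3 * x / J + 3 * J + 3 * Real.log (8 * d) + 10

/-- The subfield `F` is spanned over `ℚ` by its integers of house at most `Φ`. -/
def Spn {K : Type} [Field K] [NumberField K] (F : IntermediateField ℚ K) (Φ : ℝ) : Prop :=
  ∀ x ∈ F, x ∈ Submodule.span ℚ {y : K | y ∈ F ∧ IsIntegral ℤ y ∧ hs y ≤ Φ}

section Basic

variable {K : Type} [Field K] [NumberField K]

lemma d_pos : 0 < finrank ℚ K := finrank_pos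

lemma card_emb : Fintype.card (K →+* ℂ) = finrank ℚ K := Embeddings.card K ℂ

lemma hs_le_iff {x : K} {X : ℝ} (hX : 0 ≤ X) : hs x ≤ X ↔ ∀ φ : K →+* ℂ, ‖φ x‖ ≤ X :=
  pi_norm_le_iff_of_nonneg hX

lemma norm_le_hs (φ : K →+* ℂ) (x : K) : ‖φ x‖ ≤ hs x :=
  norm_le_pi_norm (fun φ : K →+* ℂ => φ x) φ

lemma hs_nonneg (x : K) : 0 ≤ hs x := norm_nonneg _

lemma hs_add_le (x y : K) : hs (x + y) ≤ hs x + hs y := by
  rw [hs_le_iff (add_nonneg (hs_nonneg x) (hs_nonneg y))]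
  intro φ
  rw [map_add]
  exact (norm_add_le _ _).trans (add_le_add (norm_le_hs φ x) (norm_le_hs φ y))

lemma hs_neg (x : K) : hs (-x) = hs x := by
  unfold hs
  have : (fun φ : K →+* ℂ => φ (-x)) = -fun φ : K →+* ℂ => φ x := by
    funext φ
    simp
  rw [this, norm_neg]

lemma hs_sub_le (x y : K) : hs (x - y) ≤ hs x + hs y := by
  rw [sub_eq_add_neg]
  exact (hs_add_le _ _).trans (by rw [hs_neg])

lemma hs_mul_le (x y : K) : hs (x * y) ≤ hs x * hs y := by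
  rw [hs_le_iff (mul_nonneg (hs_nonneg x) (hs_nonneg y))]
  intro φ
  rw [map_mul, norm_mul]
  exact mul_le_mul (norm_le_hs φ x) (norm_le_hs φ y) (norm_nonneg _) (hs_nonneg x)

lemma exists_hs (x : K) : ∃ φ : K →+* ℂ, ‖φ x‖ = hs x := by
  classical
  obtain ⟨φ₀⟩ : Nonempty (K →+* ℂ) := inferInstance
  obtain ⟨φ, -, hφ⟩ := Finset.exists_max_image Finset.univ (fun φ : K →+* ℂ => ‖φ x‖) ⟨φ₀, Finset.mem_univ _⟩
  refine ⟨φ, le_antisymm (norm_le_hs φ x) ?_⟩
  rw [hs_le_iff (norm_nonneg _)]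
  exact fun ψ => hφ ψ (Finset.mem_univ _)

lemma hs_pow (x : K) (n : ℕ) : hs (x ^ n) = hs x ^ n := by
  obtain ⟨φ, hφ⟩ := exists_hs x
  apply le_antisymm
  · rw [hs_le_iff (pow_nonneg (hs_nonneg x) n)]
    intro ψ
    rw [map_pow, norm_pow]
    exact pow_le_pow_left₀ (norm_nonneg _) (norm_le_hs ψ x) n
  · rw [← hφ, ← norm_pow, ← map_pow]
    exact norm_le_hs φ _

lemma hs_intCast (n : ℤ) : hs (n : K) = |(n : ℝ)| := by
  obtain ⟨φ, hφ⟩ := exists_hs (n : K)
  rw [← hφ, map_intCast, Complex.norm_intCast]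

lemma hs_natCast (n : ℕ) : hs (n : K) = n := by
  have := hs_intCast (K := K) (n : ℤ)
  simpa using this

lemma hs_one : hs (1 : K) = 1 := by
  have := hs_natCast (K := K) 1
  simpa using this

lemma hs_zero : hs (0 : K) = 0 := by
  have := hs_natCast (K := K) 0
  simpa using this

lemma hs_intCast_mul (n : ℤ) (x : K) : hs (n * x) = |(n : ℝ)| * hs x := by
  obtain ⟨φ, hφ⟩ := exists_hs x
  apply le_antisymm
  · exact (hs_mul_le _ _).trans (by rw [hs_intCast])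
  · rw [← hφ, ← Complex.norm_intCast, ← norm_mul, ← map_intCast φ, ← map_mul]
    exact norm_le_hs φ _

lemma hs_natCast_mul (n : ℕ) (x : K) : hs (n * x) = n * hs x := by
  have := hs_intCast_mul (K := K) (n : ℤ) x
  simpa using this

lemma hs_eq_zero {x : K} : hs x = 0 ↔ x = 0 := by
  constructor
  · intro h
    obtain ⟨φ⟩ : Nonempty (K →+* ℂ) := inferInstance
    have h1 : ‖φ x‖ ≤ 0 := h ▸ norm_le_hs φ x
    have h2 : φ x = 0 := norm_le_zero_iff.1 h1
    exact (map_eq_zero φ).1 h2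
  · rintro rfl
    exact hs_zero

lemma hs_sum_le {ι : Type*} (s : Finset ι) (f : ι → K) : hs (∑ i ∈ s, f i) ≤ ∑ i ∈ s, hs (f i) := by
  classical
  induction s using Finset.induction_on with
  | empty => simp [hs_zero]
  | insert a s ha ih =>
    rw [Finset.sum_insert ha, Finset.sum_insert ha]
    exact (hs_add_le _ _).trans (add_le_add le_rfl ih)

/-- nonzero integers have norm at least `1` in absolute value -/
lemma one_le_prod_norm {x : K} (hx : IsIntegral ℤ x) (hx0 : x ≠ 0) :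
    1 ≤ ∏ φ : K →+* ℂ, ‖φ x‖ := by
  have h1 := Algebra.norm_eq_prod_embeddings ℚ ℂ x
  have h2 : ∏ σ : K →ₐ[ℚ] ℂ, σ x = ∏ φ : K →+* ℂ, φ x := by
    rw [← (RingHom.equivRatAlgHom (R := K) (S := ℂ)).prod_comp]
    rfl
  rw [← norm_prod, ← h2, ← h1]
  obtain ⟨y, rfl⟩ : ∃ y : 𝓞 K, (y : K) = x := ⟨⟨x, hx⟩, rfl⟩
  rw [← Algebra.coe_norm_int]
  have h3 : Algebra.norm ℤ y ≠ 0 := by
    rw [Algebra.norm_ne_zero_iff]
    rintro rfl
    simp at hx0
  have h4 : (1 : ℤ) ≤ |Algebra.norm ℤ y| := Int.one_le_abs h3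
  simp only [eq_ratCast, Rat.cast_intCast, Complex.norm_intCast]
  exact_mod_cast h4

lemma one_le_hs {x : K} (hx : IsIntegral ℤ x) (hx0 : x ≠ 0) : 1 ≤ hs x := by
  by_contra h
  rw [not_le] at h
  have h1 := one_le_prod_norm hx hx0
  obtain ⟨φ₀⟩ : Nonempty (K →+* ℂ) := inferInstance
  have h2 : ∏ φ : K →+* ℂ, ‖φ x‖ < 1 := by
    calc ∏ φ : K →+* ℂ, ‖φ x‖ ≤ ∏ _φ : K →+* ℂ, hs x :=
          Finset.prod_le_prod (fun _ _ => norm_nonneg _) fun φ _ => norm_le_hs φ x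
      _ = hs x ^ Fintype.card (K →+* ℂ) := by simp
      _ < 1 := pow_lt_one₀ (hs_nonneg x) h (Fintype.card_ne_zero)
  linarith

lemma Bx_finite (X : ℝ) : (Bx K X).Finite := by
  refine (Embeddings.finite_of_norm_le K ℂ X).subset ?_
  rintro x ⟨hx, hX⟩
  exact ⟨hx, fun φ => (norm_le_hs φ x).trans hX⟩

lemma Bx_mono {X X' : ℝ} (h : X ≤ X') : Bx K X ⊆ Bx K X' := fun _ hx => ⟨hx.1, hx.2.trans h⟩

lemma zero_mem_Bx {X : ℝ} (h : 0 ≤ X) : (0 : K) ∈ Bx K X :=
  ⟨isIntegral_zero, by rwa [hs_zero]⟩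

lemma SS_sq {x : K} (hx : IsIntegral ℤ x) : x ^ 2 ∈ SS K := AddSubmonoid.subset_closure ⟨x, hx, rfl⟩

lemma SS_int {α : K} (h : α ∈ SS K) : IsIntegral ℤ α := by
  induction h using AddSubmonoid.closure_induction with
  | mem y hy =>
    obtain ⟨x, hx, rfl⟩ := hy
    exact hx.pow 2
  | zero => exact isIntegral_zero
  | add x y _ _ hx hy => exact hx.add hy

lemma SY_subset_Bx (Y : ℝ) : SY K Y ⊆ Bx K Y := fun _ h => ⟨SS_int h.1, h.2⟩

lemma SY_finite (Y : ℝ) : (SY K Y).Finite := (Bx_finite Y).subset (SY_subset_Bx Y)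

lemma SY_mono {Y Y' : ℝ} (h : Y ≤ Y') : SY K Y ⊆ SY K Y' := fun _ hx => ⟨hx.1, hx.2.trans h⟩

lemma zero_mem_SY {Y : ℝ} (h : 0 ≤ Y) : (0 : K) ∈ SY K Y :=
  ⟨zero_mem _, by rwa [hs_zero]⟩

lemma Ms_nonneg (x : K) : 0 ≤ Ms x :=
  div_nonneg (Finset.sum_nonneg fun _ _ => sq_nonneg _) (Nat.cast_nonneg _)

lemma Ms_le_hs (x : K) : Ms x ≤ hs x ^ 2 := by
  unfold Ms
  rw [div_le_iff₀ (by exact_mod_cast d_pos)]
  calc ∑ φ : K →+* ℂ, ‖φ x‖ ^ 2 ≤ ∑ _φ : K →+* ℂ, hs x ^ 2 :=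
        Finset.sum_le_sum fun φ _ => pow_le_pow_left₀ (norm_nonneg _) (norm_le_hs φ x) 2
    _ = hs x ^ 2 * finrank ℚ K := by
        rw [Finset.sum_const, Finset.card_univ, card_emb, nsmul_eq_mul, mul_comm]

lemma hs_le_Ms (x : K) : hs x ^ 2 ≤ finrank ℚ K * Ms x := by
  obtain ⟨φ, hφ⟩ := exists_hs x
  unfold Ms
  rw [mul_div_cancel₀ _ (by exact_mod_cast d_pos.ne'), ← hφ]
  exact Finset.single_le_sum (f := fun φ : K →+* ℂ => ‖φ x‖ ^ 2) (fun _ _ => sq_nonneg _)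
    (Finset.mem_univ φ)

lemma Av_le_hs (x : K) : Av x ≤ hs x := by
  unfold Av
  rw [div_le_iff₀ (by exact_mod_cast d_pos)]
  calc ∑ φ : K →+* ℂ, ‖φ x‖ ≤ ∑ _φ : K →+* ℂ, hs x :=
        Finset.sum_le_sum fun φ _ => norm_le_hs φ x
    _ = hs x * finrank ℚ K := by
        rw [Finset.sum_const, Finset.card_univ, card_emb, nsmul_eq_mul, mul_comm]

lemma Ms_parallelogram (x y : K) : Ms (x + y) + Ms (x - y) = 2 * Ms x + 2 * Ms y := by
  unfold Ms
  have h : ∀ φ : K →+* ℂ, ‖φ (x + y)‖ ^ 2 + ‖φ (x - y)‖ ^ 2 = 2 * ‖φ x‖ ^ 2 + 2 * ‖φ y‖ ^ 2 := by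
    intro φ
    have := parallelogram_law_with_norm ℝ (φ x) (φ y)
    rw [map_add, map_sub]
    nlinarith [this]
  rw [← add_div, ← Finset.sum_add_distrib, Finset.sum_congr rfl fun φ _ => h φ,
    Finset.sum_add_distrib, ← Finset.mul_sum, ← Finset.mul_sum]
  ring

/-- in a totally real field the mean square is the normalised trace of the square -/
lemma Ms_eq (hK : TR K) (x : K) :
    Ms x = (∑ φ : K →+* ℂ, (realEmb hK φ x) ^ 2) / finrank ℚ K := by
  unfold Ms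
  congr 1
  apply Finset.sum_congr rfl
  intro φ _
  rw [← norm_realEmb hK φ x, sq_abs]

lemma Mn.w_ne (m : Mn K) (i : Fin (finrank ℚ K)) : m.w i ≠ 0 := m.ind.ne_zero i

lemma Mn.one_le (m : Mn K) (i : Fin (finrank ℚ K)) : 1 ≤ hs (m.w i) := one_le_hs (m.int i) (m.w_ne i)

lemma ell_eq (m : Mn K) (i : Fin (finrank ℚ K)) : ell m i = Real.log (hs (m.w i)) := by
  unfold ell
  rw [dif_pos i.2]

lemma exp_ell (m : Mn K) (i : Fin (finrank ℚ K)) : Real.exp (ell m i) = hs (m.w i) := by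
  rw [ell_eq, Real.exp_log (by linarith [m.one_le i])]

lemma ell_nonneg (m : Mn K) (j : ℕ) : 0 ≤ ell m j := by
  unfold ell
  split_ifs with h
  · exact Real.log_nonneg (m.one_le _)
  · exact le_rfl

lemma ell_mono (m : Mn K) {i j : ℕ} (h : i ≤ j) (hj : j < finrank ℚ K) : ell m i ≤ ell m j := by
  have h1 := ell_eq m ⟨i, h.trans_lt hj⟩
  have h2 := ell_eq m ⟨j, hj⟩
  simp only at h1 h2
  rw [h1, h2]
  exact Real.log_le_log (by linarith [m.one_le ⟨i, h.trans_lt hj⟩]) (m.mono (by exact h))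

lemma ell_le_Lam (m : Mn K) {j : ℕ} (hj : j < finrank ℚ K) : ell m j ≤ Lam m :=
  ell_mono m (Nat.le_sub_one_of_lt hj) (Nat.sub_lt d_pos one_pos)

end Basic

end Pool.Agent.Lib.MPcb8a44.RD
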